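import Pool.Agent.Y133.Half.PerDefs

/-!
# Graded de Rham structures

The algebraic de Rham cohomology is the direct sum of its parts of degree `i`. This is the only
property which is added here to the ones listed in `Pool.Agent.Y133.Per.DeRham`.
-/

open CategoryTheory AlgebraicGeometry

open scoped TensorProduct

universe u v

namespace Pool.Agent.Q57.DR

open Pool.Agent.H914 Pool.Agent.H914.VarClass Pool.Agent.H914.VarClass.Obj
  Pool.Agent.H914.WeilCohomology
open Pool.Agent.Y133.Per

section Alg

variable {K A : Type*} [Field K] [Algebra K ℂ] [Ring A] [Algebra K A]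

/-- The elements of degree `i` of the algebra `A` with complex coefficients: the complex linear
combinations of the elements of `gr i`. -/
noncomputable def degC (gr : ℕ → Submodule K A) (i : ℕ) : Submodule ℂ (Base K A) :=
  Submodule.span ℂ ((fun c : A => tm 1 c) '' (gr i : Set A))

/-- Every element of `S` is a sum of elements `f 0`, …, `f m` of `S`, where `f i` is of
degree `i`. -/
def IsGradedSet (gr : ℕ → Submodule K A) (m : ℕ) (S : Set (Base K A)) : Prop :=
  ∀ a ∈ S, ∃ f : ℕ → Base K A, (∀ i, f i ∈ S ∧ f i ∈ degC gr i) ∧
    a = ∑ i ∈ Finset.range (m + 1), f i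

end Alg

variable {k : Type u} [Field k] {𝒱 : VarClass k} {ops : CycleOps 𝒱}

/-- A graded de Rham structure: the de Rham cohomology of `X` is the sum of its parts in the
degrees `0`, …, `2 dim X`. -/
structure GrDeRham (W : WeilCohomology.{u, v} ops) [Algebra W.K ℂ] (F : Subfield ℂ) extends
    DeRham W F where
  graded : ∀ X : 𝒱.Obj, IsGradedSet (W.gr X) (2 * X.dim) (dR X)

end Pool.Agent.Q57.DR
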