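import Pool.Agent.Q57.DR.Defs
import Pool.Agent.Q60.HDS.Defs
import Pool.Agent.Y133.Half.PairDefs

/-!
# Hodge classes which are de Rham-Betti classes: definitions
-/

open CategoryTheory AlgebraicGeometry

universe u

namespace Pool.Agent.Q57.DR

open Pool.Agent.H914 Pool.Agent.H914.VarClass Pool.Agent.H914.VarClass.Obj
  Pool.Agent.H914.WeilCohomology
open Pool.Agent.Y133.Per
open Pool.Agent.Y133.Half (dimOf)
open Pool.Agent.Y121.AHS

variable {k : Type u} [Field k] {𝒱 : VarClass k} {ops : CycleOps 𝒱}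

/-- The class `c` is a Hodge class and a de Rham-Betti class. -/
def IsHD (T : HodgeTheory ops) {F : Subfield ℂ} (D : DeRham T.W F) (X : 𝒱.Obj) (j : ℕ)
    (c : T.W.H X) : Prop :=
  IsHodge T X j c ∧ IsDRB D X j c

/-- The dimension of the space spanned by the classes which are Hodge classes and de Rham-Betti
classes. -/
noncomputable def hdDim (T : HodgeTheory ops) {F : Subfield ℂ} (D : DeRham T.W F) (X : 𝒱.Obj) :
    ℕ :=
  dimOf T.W {c | ∃ j, IsHD T D X j c}

/-- All Hodge classes on `Y` are de Rham-Betti classes. -/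
def AllHodgeDRB (T : HodgeTheory ops) {F : Subfield ℂ} (D : DeRham T.W F) (Y : 𝒱.Obj) : Prop :=
  ∀ j c, IsHodge T Y j c → IsDRB D Y j c

end Pool.Agent.Q57.DR
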