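import Pool.Agent.Q57.DR.Lift
import Pool.Agent.Q50.MO.CFin

/-!
# The index of the de Rham-Betti classes over the motivated classes
-/

open CategoryTheory AlgebraicGeometry

open scoped TensorProduct

universe u

namespace Pool.Agent.Q57.DR

open Module
open Pool.Agent.H914 Pool.Agent.H914.VarClass Pool.Agent.H914.VarClass.Obj
  Pool.Agent.H914.WeilCohomology
open Pool.Agent.Y133.Per
open Pool.Agent.Y133.Half
open Pool.Agent.Y121
open Pool.Agent.Q55 (Motivated motPred motDim)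

variable {k : Type u} [Field k] {𝒱 : VarClass k} {ops : CycleOps 𝒱}

/-- The motivated classes as a system. -/
lemma mot_le_drb {T : AHS.HodgeTheory ops} {F : Subfield ℂ} (D : GrDeRham T.W F) (Z : 𝒱.Obj) :
    (motPred T.W).sys.C Z ≤ (drbPred D.toDeRham).sys.C Z :=
  ClassPred.sys_le (Q := motPred T.W) (R := drbPred D.toDeRham) (fun {_ _ _} h => mot_drb D h) Z

theorem f_mot (T : AHS.HodgeTheory ops) {F : Subfield ℂ} (D : GrDeRham T.W F) (Y : 𝒱.Obj) (j : ℕ)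
    (c : T.W.H Y) (h : Motivated T.W Y j c) :
    AHS.IsHodge T Y j c ∧ IsDRB D.toDeRham Y j c :=
  ⟨Pool.Agent.Q50.MO.mot_hodge (T := AHS.toH T) h, mot_drb D h⟩

theorem f_tower (T : AHS.HodgeTheory ops) {F : Subfield ℂ} (D : GrDeRham T.W F) (X : 𝒱.Obj)
    [Nontrivial (T.W.H X)] :
    ∃ N M : ℕ∞, 1 ≤ N ∧ 1 ≤ M ∧
      HasIndex (fun n => drbDim D.toDeRham (pw X n)) (fun n => motDim T.W (pw X n)) N ∧
      HasIndex (fun n => motDim T.W (pw X n)) (fun n => cycRank ops (pw X n)) M ∧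
      HasIndex (fun n => drbDim D.toDeRham (pw X n)) (fun n => cycRank ops (pw X n)) (N * M) ∧
      (N = 1 ↔ ∀ n j c, IsDRB D.toDeRham (pw X n) j c → Motivated T.W (pw X n) j c) ∧
      (M = 1 ↔ ∀ n j c, Motivated T.W (pw X n) j c → c ∈ spanCycles T.W (pw X n) j) ∧
      (N ≠ ⊤ → GeneratedOver T.W (Motivated T.W) (IsDRB D.toDeRham) X N) := by
  obtain ⟨N, M, h1, h2, h3, h4, h5, h6, h7, -, -, h8, -⟩ :=
    (motPred T.W).tower (drbPred D.toDeRham) (fun {_ _ _} h => mot_drb D h) X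
      (fun n => mot_nondeg (T := AHS.toH T) (pw X n))
  exact ⟨N, M, h1, h2, h3, h4, h5, h6, h7, h8⟩

theorem f_half (T : AHS.HodgeTheory ops) {F : Subfield ℂ} (D : GrDeRham T.W F) (X : 𝒱.Obj)
    [Nontrivial (T.W.H X)] {N m : ℕ} (hN : 8 ≤ N) (hN2 : N % 2 = 0) (hm : m < N) {j : ℕ}
    {c : T.W.H (pw X m)} (hc : IsDRB D.toDeRham (pw X m) j c)
    (hc' : ¬ Motivated T.W (pw X m) j c) {ε : ℝ} (hε : 0 < ε) {n : ℕ}
    (hn : (2 * (finrank T.W.K (T.W.H X) : ℝ)) ^ (3 * N) / ε ^ 2 ≤ n + 1) :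
    (motDim T.W (pw X n) : ℝ) ≤ (1 / 2 + ε) * drbDim D.toDeRham (pw X n) := by
  have hX : Nontrivial ((AHS.toH T).W.H X) := inferInstanceAs (Nontrivial (T.W.H X))
  have hne : ¬ (drbPred D.toDeRham).sys.C (pw X m) ≤ (motPred T.W).sys.C (pw X m) := by
    intro h
    apply hc'
    exact ClassPred.of_sp (Q := motPred T.W) (h (ClassPred.sp_of (Q := drbPred D.toDeRham) hc))
      hc.1
  have key := half_sys (T := AHS.toH T) (X := X) (S := (motPred T.W).sys)
    (R := (drbPred D.toDeRham).sys) (mot_le_drb D)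
    (fun Z z hz => Pool.Agent.Q50.MO.cl_mem_mot T.W Z z hz) hN hN2 hm hne hε hn
  have h1 : (motDim T.W (pw X n) : ℝ) = (motPred T.W).sys.a (pw X n) :=
    congrArg Nat.cast (Pool.Agent.Q50.MO.motDim_eq_a (T := AHS.toH T) (pw X n))
  rw [h1]
  exact key

end Pool.Agent.Q57.DR
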