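import Pool.Agent.Q57.DR.Lift
import Pool.Agent.Q57.DR.Defs2
import Pool.Agent.Q50.MO.CFin

/-!
# The indices of the Hodge classes which are de Rham-Betti classes
-/

open CategoryTheory AlgebraicGeometry Filter Topology

open scoped TensorProduct ENNReal

universe u

namespace Pool.Agent.Q57.DR

open Module
open Pool.Agent.H914 Pool.Agent.H914.VarClass Pool.Agent.H914.VarClass.Obj
  Pool.Agent.H914.WeilCohomology
open Pool.Agent.Y133.Per
open Pool.Agent.Y133.Half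
open Pool.Agent.Y121
open Pool.Agent.Y121.AHS (IsHodge hodgeDim)
open Pool.Agent.Q60.HDS (PolHodgeTheory totalBetti power tH realH exists_isPol bound_pos)
open Pool.Agent.Q50.MO (FullS)

variable {k : Type u} [Field k] {𝒱 : VarClass k} {ops : CycleOps 𝒱}

lemma hasIndex_unique {t r : ℕ → ℕ} {N M : ℕ∞} (h1 : HasIndex t r N) (h2 : HasIndex t r M) :
    N = M := by
  have h3 := tendsto_nhds_unique h1 h2
  exact ENat.toENNReal_inj.1 h3

section

variable (T : AHS.HodgeTheory ops) {F : Subfield ℂ} (D : GrDeRham T.W F)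

/-- The Hodge classes which are de Rham-Betti classes. -/
noncomputable abbrev hd : ClassPred T.W := hdPred (AHS.toH T) D.toDeRham

theorem g_tower (X : 𝒱.Obj) [Nontrivial (T.W.H X)] :
    ∃ M N N' : ℕ∞, 1 ≤ M ∧ 1 ≤ N ∧ 1 ≤ N' ∧
      HasIndex (fun n => hdDim T D.toDeRham (pw X n)) (fun n => cycRank ops (pw X n)) M ∧
      HasIndex (fun n => drbDim D.toDeRham (pw X n)) (fun n => hdDim T D.toDeRham (pw X n)) N ∧
      HasIndex (fun n => hodgeDim T (pw X n)) (fun n => hdDim T D.toDeRham (pw X n)) N' ∧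
      HasIndex (fun n => drbDim D.toDeRham (pw X n)) (fun n => cycRank ops (pw X n)) (N * M) ∧
      HasIndex (fun n => hodgeDim T (pw X n)) (fun n => cycRank ops (pw X n)) (N' * M) ∧
      (M = 1 ↔ ∀ n j c, IsHD T D.toDeRham (pw X n) j c → c ∈ spanCycles T.W (pw X n) j) ∧
      (N = 1 ↔ ∀ n j c, IsDRB D.toDeRham (pw X n) j c → IsHodge T (pw X n) j c) ∧
      (N' = 1 ↔ ∀ n, AllHodgeDRB T D.toDeRham (pw X n)) ∧
      (N ≠ ⊤ → GeneratedOver T.W (IsHD T D.toDeRham) (IsDRB D.toDeRham) X N) ∧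
      (N' ≠ ⊤ → GeneratedOver T.W (IsHD T D.toDeRham) (IsHodge T) X N') := by
  have hnd : ∀ n, (hd T D).sys.Nondeg (pw X n) := fun n =>
    hd_nondeg (T := AHS.toH T) D (pw X n)
  obtain ⟨N, M, h1, h2, h3, h4, h5, h6, h7, -, -, h8, -⟩ :=
    (hd T D).tower (drbPred D.toDeRham) (fun {_ _ _} h => h.2) X hnd
  obtain ⟨N', M', k1, k2, k3, k4, k5, k6, k7, -, -, k8, -⟩ :=
    (hd T D).tower (AH.hodgePred (AHS.toH T)) (fun {_ _ _} h => h.1) X hnd
  have hM : M' = M := hasIndex_unique k4 h4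
  subst hM
  refine ⟨M', N, N', h2, h1, k1, h4, h3, k3, h5, k5, h7, ?_, ?_, h8, k8⟩
  · rw [h6]
    exact ⟨fun h n j c hc => (h n j c hc).1, fun h n j c hc => ⟨h n j c hc, hc⟩⟩
  · rw [k6]
    exact ⟨fun h n j c hc => (h n j c hc).2, fun h n j c hc => ⟨hc, h n j c hc⟩⟩

theorem g_gpc (X : 𝒱.Obj) : (∀ n j, GPC D.toDeRham (pw X n) j) ↔
    (∀ n j c, IsHD T D.toDeRham (pw X n) j c → c ∈ spanCycles T.W (pw X n) j) ∧
      ∀ n j c, IsDRB D.toDeRham (pw X n) j c → IsHodge T (pw X n) j c := by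
  constructor
  · intro h
    exact ⟨fun n j c hc => h n j c hc.2, fun n j c hc =>
      ClassPred.span_le (Q := AH.hodgePred (AHS.toH T)) (h n j c hc)⟩
  · rintro ⟨h1, h2⟩ n j c hc
    exact h1 n j c ⟨h2 n j c hc, hc⟩

lemma hd_cl (Z : 𝒱.Obj) (z : Z.Cycles) (hz : Z.IsCyc 1 z) :
    T.W.cl Z z ∈ (hd T D).sys.C Z :=
  ClassPred.sp_of (Q := hd T D) ((hd T D).cl hz)

lemma hdDim_eq (X : 𝒱.Obj) : hdDim T D.toDeRham X = (hd T D).sys.a X := by
  have h0 : (hd T D).sys.Num X = ⊥ := by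
    rw [eq_bot_iff]
    intro x hx
    exact hd_nondeg (T := AHS.toH T) D X x hx.1 hx.2
  have h1 := (hd T D).sys.a_add_num X
  rw [h0, finrank_bot, add_zero] at h1
  rw [h1]
  rfl

theorem g_half (X : 𝒱.Obj) [Nontrivial (T.W.H X)] {N m : ℕ} (hN : 8 ≤ N) (hN2 : N % 2 = 0)
    (hm : m < N) {j : ℕ} {c : T.W.H (pw X m)} (hc : IsDRB D.toDeRham (pw X m) j c)
    (hc' : ¬ IsHodge T (pw X m) j c) {ε : ℝ} (hε : 0 < ε) {n : ℕ}
    (hn : (2 * (finrank T.W.K (T.W.H X) : ℝ)) ^ (3 * N) / ε ^ 2 ≤ n + 1) :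
    (hdDim T D.toDeRham (pw X n) : ℝ) ≤ (1 / 2 + ε) * drbDim D.toDeRham (pw X n) := by
  have hX : Nontrivial ((AHS.toH T).W.H X) := inferInstanceAs (Nontrivial (T.W.H X))
  have hne : ¬ (drbPred D.toDeRham).sys.C (pw X m) ≤ (hd T D).sys.C (pw X m) := by
    intro h
    apply hc'
    exact (ClassPred.of_sp (Q := hd T D) (h (ClassPred.sp_of (Q := drbPred D.toDeRham) hc))
      hc.1).1
  have key := half_sys (T := AHS.toH T) (X := X) (S := (hd T D).sys)
    (R := (drbPred D.toDeRham).sys)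
    (fun Z => ClassPred.sys_le (Q := hd T D) (R := drbPred D.toDeRham) (fun {_ _ _} h => h.2) Z)
    (fun Z z hz => hd_cl T D Z z hz) hN hN2 hm hne hε hn
  have h1 : (hdDim T D.toDeRham (pw X n) : ℝ) = (hd T D).sys.a (pw X n) :=
    congrArg Nat.cast (hdDim_eq T D (pw X n))
  rw [h1]
  exact key

lemma hd_le_hodge (Z : 𝒱.Obj) : (hd T D).sys.C Z ≤ (AH.hodgeSys (AHS.toH T)).C Z :=
  ClassPred.sys_le (Q := hd T D) (R := AH.hodgePred (AHS.toH T)) (fun {_ _ _} h => h.1) Z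

lemma full_iff (Y : 𝒱.Obj) : FullS (T := AHS.toH T) (hd T D).sys Y ↔
    AllHodgeDRB T D.toDeRham Y := by
  constructor
  · intro h j c hc
    exact (ClassPred.of_sp (Q := hd T D)
      (h (ClassPred.sp_of (Q := AH.hodgePred (AHS.toH T)) (j := j) hc)) hc.1).2
  · intro h
    exact ((ClassPred.sys_eq_iff (Q := hd T D) (R := AH.hodgePred (AHS.toH T))
      (fun {_ _ _} h => h.1) Y).2 fun j c hc => ⟨hc, h j c hc⟩).le

end

variable (T : PolHodgeTheory ops) {F : Subfield ℂ} (D : GrDeRham T.W F)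

theorem g_determination {X : 𝒱.Obj} (h : AllHodgeDRB T.toHodgeTheory D.toDeRham
    (power X ((2 * totalBetti T.toHodgeTheory X) ^ (3 * totalBetti T.toHodgeTheory X ^ 2))))
    (n : ℕ) : AllHodgeDRB T.toHodgeTheory D.toDeRham (power X n) :=
  (full_iff T.toHodgeTheory D _).1 (Pool.Agent.Q50.MO.determination T
    (S := (hd T.toHodgeTheory D).sys) (hd_le_hodge T.toHodgeTheory D) (X := X) le_rfl
    ((full_iff T.toHodgeTheory D _).2 h) (n - 1))

theorem g_hodge_half {X : 𝒱.Obj} {ε : ℝ} (hε : 0 < ε) {n : ℕ}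
    (hn : (2 * (totalBetti T.toHodgeTheory X : ℝ)) ^ (3 * (2 * totalBetti T.toHodgeTheory X) ^
      (3 * totalBetti T.toHodgeTheory X ^ 2)) / ε ^ 2 ≤ n)
    (h : (1 / 2 + ε) * hodgeDim T.toHodgeTheory (power X n) <
      hdDim T.toHodgeTheory D.toDeRham (power X n))
    (m : ℕ) : AllHodgeDRB T.toHodgeTheory D.toDeRham (power X m) := by
  obtain ⟨φ, hφ⟩ := exists_isPol T X
  have h1 : (hdDim T.toHodgeTheory D.toDeRham (power X n) : ℝ) ≤
      (hd T.toHodgeTheory D).sys.a (power X n) :=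
    le_of_eq (congrArg Nat.cast (hdDim_eq T.toHodgeTheory D (power X n)))
  refine (full_iff T.toHodgeTheory D _).1 (Pool.Agent.Q60.HD.uniform (realH T X) hφ
    (hd T.toHodgeTheory D).sys (fun Z => hd_le_hodge T.toHodgeTheory D Z)
    (fun Z z hz => hd_cl T.toHodgeTheory D Z z hz) hε (n := n - 1) ?_ ?_ (m - 1))
  · refine hn.trans ?_
    exact_mod_cast (by omega : n ≤ n - 1 + 1)
  · exact lt_of_lt_of_le h h1

end Pool.Agent.Q57.DR
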