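import Pool.Agent.Q57.DR.Defs
import Pool.Agent.Y133.Half.Per
import Pool.Agent.Q50.MO.MNum

/-!
# The Lefschetz operators and the de Rham cohomology
-/

open CategoryTheory AlgebraicGeometry

open scoped TensorProduct

universe u v

namespace Pool.Agent.Q57.DR

open Module
open Pool.Agent.H914 Pool.Agent.H914.VarClass Pool.Agent.H914.VarClass.Obj
  Pool.Agent.H914.WeilCohomology
open Pool.Agent.Y133.Per

section Alg

variable {K A B C : Type*} [Field K] [Algebra K ℂ] [Ring A] [Algebra K A] [Ring B] [Algebra K B]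
  [Ring C] [Algebra K C]

/-- The extension of a linear map to complex coefficients. -/
noncomputable def bc (f : A →ₗ[K] B) : Base K A →ₗ[ℂ] Base K B := f.baseChange ℂ

lemma bc_tm (f : A →ₗ[K] B) (r : ℂ) (c : A) : bc f (tm r c) = tm r (f c) :=
  LinearMap.baseChange_tmul _ _ _

lemma tm_eq_smul (r : ℂ) (c : A) : (tm r c : Base K A) = r • tm 1 c := by
  rw [smul_tm, mul_one]

lemma degC_tm {gr : ℕ → Submodule K A} {i : ℕ} {r : ℂ} {c : A} (hc : c ∈ gr i) :
    (tm r c : Base K A) ∈ degC gr i := by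
  rw [tm_eq_smul]
  exact Submodule.smul_mem _ _ (Submodule.subset_span ⟨c, hc, rfl⟩)

lemma degC_ext {gr : ℕ → Submodule K A} {i : ℕ} {V : Type*} [AddCommGroup V] [Module ℂ V]
    {f g : Base K A →ₗ[ℂ] V}
    (h : ∀ c ∈ gr i, f (tm 1 c) = g (tm 1 c)) {x : Base K A} (hx : x ∈ degC gr i) :
    f x = g x := by
  refine LinearMap.eqOn_span (s := (fun c : A => tm 1 c) '' (gr i : Set A)) ?_ hx
  rintro _ ⟨c, hc, rfl⟩
  exact h c hc

lemma degC_map {gr : ℕ → Submodule K A} {gr' : ℕ → Submodule K B} {i j : ℕ} {f : A →ₗ[K] B}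
    (h : ∀ c ∈ gr i, f c ∈ gr' j) {x : Base K A} (hx : x ∈ degC gr i) : bc f x ∈ degC gr' j := by
  have h1 : degC gr i ≤ (degC gr' j).comap (bc f) := by
    refine Submodule.span_le.2 ?_
    rintro _ ⟨c, hc, rfl⟩
    change bc f (tm 1 c) ∈ degC gr' j
    rw [bc_tm]
    exact degC_tm (h c hc)
  exact h1 hx

lemma degC_bot {gr : ℕ → Submodule K A} {i : ℕ} (h : gr i = ⊥) {x : Base K A}
    (hx : x ∈ degC gr i) : x = 0 := by
  refine degC_ext (f := LinearMap.id) (g := 0) (fun c hc => ?_) hx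
  rw [h, Submodule.mem_bot] at hc
  rw [hc, tm_zero]
  rfl

lemma degC_top {gr : ℕ → Submodule K A} (hgr : DirectSum.IsInternal gr)
    {S : Submodule ℂ (Base K A)} (h : ∀ i, degC gr i ≤ S) : S = ⊤ := by
  rw [eq_top_iff]
  intro x _
  refine base_ind (p := fun x => x ∈ S) (Submodule.zero_mem _) ?_
    (fun a b ha hb => Submodule.add_mem _ ha hb) x
  intro r c
  refine gr_induction hgr (p := fun c => tm r c ∈ S) (fun i a ha => h i (degC_tm ha)) ?_ c
  intro a b ha hb
  rw [tm_add]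
  exact Submodule.add_mem _ ha hb

lemma bc_proj_same {gr : ℕ → Submodule K A} (hgr : DirectSum.IsInternal gr) {i : ℕ}
    {x : Base K A} (hx : x ∈ degC gr i) : bc (proj hgr i) x = x := by
  refine degC_ext (f := bc (proj hgr i)) (g := LinearMap.id) (fun c hc => ?_) hx
  rw [bc_tm, proj_same _ hc]
  rfl

lemma bc_proj_ne {gr : ℕ → Submodule K A} (hgr : DirectSum.IsInternal gr) {i j : ℕ}
    (hij : i ≠ j) {x : Base K A} (hx : x ∈ degC gr j) : bc (proj hgr i) x = 0 := by
  refine degC_ext (f := bc (proj hgr i)) (g := 0) (fun c hc => ?_) hx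
  rw [bc_tm, proj_ne _ hc (by omega), tm_zero]
  rfl

end Alg

section Lef

variable {K : Type*} [Field K] {V : Type*} [AddCommGroup V] [Module K V]
  {gr : ℕ → Submodule K V} {n : ℕ} {L Lam : Module.End K V}

lemma lam_L (hL : IsHom gr 2 L) (hbd : ∀ i, 2 * n + 1 ≤ i → gr i = ⊥) (hHL : HardLef gr n L)
    (hLam : IsLam gr n L Lam) {m k : ℕ} {x : V} (hx : x ∈ gr m) (hmk : m + (k + 1) ≤ n) :
    Lam ((L ^ (k + 1)) x) = (L ^ k) x := by
  have key := lef_induction hL hbd hHL
    (p := fun m x => ∀ k, m + (k + 1) ≤ n → Lam ((L ^ (k + 1)) x) = (L ^ k) x)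
    (by intro i a b ha hb k hk; rw [map_add, map_add, map_add, ha k hk, hb k hk])
    (by
      intro i hi a ha hp j k hk
      rw [← Module.End.mul_apply (L ^ (k + 1)), ← Module.End.mul_apply (L ^ k), ← pow_add,
        ← pow_add, show k + 1 + j = k + j + 1 by ring]
      exact (hLam i hi a ha hp).2 _ (by omega))
  have := key m (by omega) x hx 0 k (by omega)
  rwa [pow_zero, Module.End.one_apply] at this

lemma L_lam (hL : IsHom gr 2 L) (hbd : ∀ i, 2 * n + 1 ≤ i → gr i = ⊥) (hHL : HardLef gr n L)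
    (hLam : IsLam gr n L Lam) {m : ℕ} {x : V} (hx : x ∈ gr m) (hm : m ≤ n) :
    (L ^ (n - m + 2)) (Lam x) = (L ^ (n - m + 1)) x := by
  have key := lef_induction hL hbd hHL
    (p := fun m x => m ≤ n → (L ^ (n - m + 2)) (Lam x) = (L ^ (n - m + 1)) x)
    (by intro i a b ha hb hi; rw [map_add, map_add, map_add, ha hi, hb hi])
    (by
      intro i hi a ha hp j hj
      rcases Nat.eq_zero_or_pos j with rfl | hj0
      · rw [pow_zero, Module.End.one_apply, (hLam i hi a ha hp).1, map_zero]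
        exact hp.symm
      · obtain ⟨l, rfl⟩ : ∃ l, j = l + 1 := ⟨j - 1, by omega⟩
        rw [(hLam i hi a ha hp).2 l (by omega), ← Module.End.mul_apply, ← Module.End.mul_apply,
          ← pow_add, ← pow_add]
        congr 2
        omega)
  have := key m hm x hx 0 (by omega)
  rwa [pow_zero, Module.End.one_apply, Nat.mul_zero, Nat.add_zero] at this

lemma lam_mem (hL : IsHom gr 2 L) (hbd : ∀ i, 2 * n + 1 ≤ i → gr i = ⊥) (hHL : HardLef gr n L)
    (hLam : IsLam gr n L Lam) {m : ℕ} {x : V} (hx : x ∈ gr m) (hm : m ≤ n) :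
    Lam x ∈ gr (m - 2) := by
  have key := lef_induction hL hbd hHL
    (p := fun m x => m ≤ n → Lam x ∈ gr (m - 2))
    (by intro i a b ha hb hi; rw [map_add]; exact Submodule.add_mem _ (ha hi) (hb hi))
    (by
      intro i hi a ha hp j hj
      rcases Nat.eq_zero_or_pos j with rfl | hj0
      · rw [pow_zero, Module.End.one_apply, (hLam i hi a ha hp).1]
        exact Submodule.zero_mem _
      · obtain ⟨l, rfl⟩ : ∃ l, j = l + 1 := ⟨j - 1, by omega⟩
        rw [(hLam i hi a ha hp).2 l (by omega)]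
        have := pow_L_mem hL ha l
        rwa [show i + 2 * l = i + 2 * (l + 1) - 2 by omega] at this)
  have := key m hm x hx 0 (by omega)
  rwa [pow_zero, Module.End.one_apply, Nat.mul_zero, Nat.add_zero] at this

lemma lam_low (hL : IsHom gr 2 L) (hbd : ∀ i, 2 * n + 1 ≤ i → gr i = ⊥)
    (hLam : IsLam gr n L Lam) {m : ℕ} {x : V} (hx : x ∈ gr m) (hm : m < 2) : Lam x = 0 := by
  rcases Nat.lt_or_ge n m with h | h
  · rw [hbd m (by omega), Submodule.mem_bot] at hx
    rw [hx, map_zero]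
  · refine (hLam m h x hx ?_).1
    have h1 := pow_L_mem hL hx (n - m + 1)
    rw [hbd _ (by omega), Submodule.mem_bot] at h1
    exact h1

/-- The inverse of `L ^ (n - i)`, extended by zero. -/
noncomputable def thet (hgr : DirectSum.IsInternal gr) (n : ℕ) (Lam : Module.End K V) (i : ℕ) :
    Module.End K V := (Lam ^ (n - i)) * proj hgr (2 * n - i)

lemma thet_ne (hgr : DirectSum.IsInternal gr) {i m : ℕ} (h : m ≠ 2 * n - i) {x : V}
    (hx : x ∈ gr m) : thet hgr n Lam i x = 0 := by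
  rw [thet, Module.End.mul_apply, proj_ne _ hx h, map_zero]

lemma thet_L (hgr : DirectSum.IsInternal gr) (hL : IsHom gr 2 L)
    (hbd : ∀ i, 2 * n + 1 ≤ i → gr i = ⊥) (hHL : HardLef gr n L)
    (hLam : IsLam gr n L Lam) {i : ℕ} (hi : i ≤ n) {x : V} (hx : x ∈ gr i) :
    thet hgr n Lam i ((L ^ (n - i)) x) = x := by
  have h1 := pow_L_mem hL hx (n - i)
  rw [show i + 2 * (n - i) = 2 * n - i by omega] at h1
  rw [thet, Module.End.mul_apply, proj_same _ h1]
  exact lam_pow_L_pow hL hbd hHL hLam (by omega)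
    (by rwa [show n - (n - i) = i by omega])

lemma L_thet (hgr : DirectSum.IsInternal gr) (hL : IsHom gr 2 L)
    (hbd : ∀ i, 2 * n + 1 ≤ i → gr i = ⊥) (hHL : HardLef gr n L)
    (hLam : IsLam gr n L Lam) {i : ℕ} (hi : i ≤ n) {x : V} (hx : x ∈ gr (2 * n - i)) :
    thet hgr n Lam i x ∈ gr i ∧ (L ^ (n - i)) (thet hgr n Lam i x) = x := by
  obtain ⟨y, hy, rfl⟩ := (hHL i hi).2 x hx
  rw [thet_L hgr hL hbd hHL hLam hi hy]
  exact ⟨hy, rfl⟩

/-- The operator `Λ` in degrees at most `n`. -/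
lemma lam_eq_low (hgr : DirectSum.IsInternal gr) (hL : IsHom gr 2 L)
    (hbd : ∀ i, 2 * n + 1 ≤ i → gr i = ⊥) (hHL : HardLef gr n L)
    (hLam : IsLam gr n L Lam) {m : ℕ} (h2 : 2 ≤ m) (hm : m ≤ n) {x : V} (hx : x ∈ gr m) :
    thet hgr n Lam (m - 2) ((L ^ (n - m + 1)) x) = Lam x := by
  rw [← L_lam hL hbd hHL hLam hx hm, show n - m + 2 = n - (m - 2) by omega]
  exact thet_L hgr hL hbd hHL hLam (by omega) (lam_mem hL hbd hHL hLam hx hm)

/-- The operator `Λ` in degrees greater than `n`. -/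
lemma lam_eq_high (hgr : DirectSum.IsInternal gr) (hL : IsHom gr 2 L)
    (hbd : ∀ i, 2 * n + 1 ≤ i → gr i = ⊥) (hHL : HardLef gr n L)
    (hLam : IsLam gr n L Lam) {m : ℕ} (hm : n < m) (hm2 : m ≤ 2 * n) {x : V} (hx : x ∈ gr m) :
    (L ^ (m - n - 1)) (thet hgr n Lam (2 * n - m) x) = Lam x := by
  obtain ⟨h1, h2⟩ := L_thet hgr hL hbd hHL hLam (i := 2 * n - m) (by omega) (x := x)
    (by rwa [show 2 * n - (2 * n - m) = m by omega])
  set y := thet hgr n Lam (2 * n - m) x with hy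
  rw [← h2, show n - (2 * n - m) = m - n - 1 + 1 by omega]
  exact (lam_L hL hbd hHL hLam h1 (by omega)).symm

end Lef

end Pool.Agent.Q57.DR
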