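import Pool.Agent.Q57.DR.Form

/-!
# The class of the operator Λ is a de Rham-Betti class
-/

open CategoryTheory AlgebraicGeometry

open scoped TensorProduct

universe u v

namespace Pool.Agent.Q57.DR

open Module
open Pool.Agent.H914 Pool.Agent.H914.VarClass Pool.Agent.H914.VarClass.Obj
  Pool.Agent.H914.WeilCohomology
open Pool.Agent.Y133.Per
open Pool.Agent.H447

section Alg

variable {K A B C : Type*} [Field K] [Algebra K ℂ] [Ring A] [Algebra K A] [Ring B] [Algebra K B]
  [Ring C] [Algebra K C]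

lemma base_ext {V : Type*} [AddCommGroup V] [Module ℂ V] {f g : Base K A →ₗ[ℂ] V}
    (h : ∀ c, f (tm 1 c) = g (tm 1 c)) (x : Base K A) : f x = g x := by
  refine base_ind (p := fun x => f x = g x) (by rw [map_zero, map_zero]) ?_ ?_ x
  · intro r c
    rw [tm_eq_smul, map_smul, map_smul, h]
  · intro a b ha hb
    rw [map_add, map_add, ha, hb]

lemma bc_comp_apply (f : B →ₗ[K] C) (g : A →ₗ[K] B) (x : Base K A) :
    bc (f ∘ₗ g) x = bc f (bc g x) := by
  refine base_ext (f := bc (f ∘ₗ g)) (g := bc f ∘ₗ bc g) (fun c => ?_) x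
  rw [LinearMap.comp_apply, bc_tm, bc_tm, bc_tm]
  rfl

lemma bc_mulLeft (c : A) (x : Base K A) :
    twoPiI • bc (LinearMap.mulLeft K c) x = twist 1 c * x := by
  refine base_ext (f := twoPiI • bc (LinearMap.mulLeft K c))
    (g := LinearMap.mulLeft ℂ (twist 1 c)) (fun d => ?_) x
  rw [LinearMap.smul_apply, bc_tm, LinearMap.mulLeft_apply, LinearMap.mulLeft_apply, twist, tm_mul,
    smul_tm, pow_one]

end Alg

variable {k : Type u} [Field k] {𝒱 : VarClass k} {ops : CycleOps 𝒱}
  {W : WeilCohomology.{u, v} ops} [Algebra W.K ℂ] {F : Subfield ℂ} {X Y : 𝒱.Obj}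

/-- Membership in the span of a subset which spans. -/
lemma mem_span_of_span (D : DeRham W F) {S : Set (Base W.K (W.H X))} (hS : S ⊆ D.dR X)
    (hsp : Submodule.span ℂ S = ⊤) {v : Base W.K (W.H X)}
    (hv : ∀ w ∈ S, ∃ r ∈ F, baseTr (W.tr X) (v * w) = twoPiI ^ X.dim * r) :
    v ∈ Submodule.span F S := by
  have h0 : twoPiI ^ X.dim ≠ 0 := pow_ne_zero _ twoPiI_ne
  let B : Base W.K (W.H X) →ₗ[ℂ] Base W.K (W.H X) →ₗ[ℂ] ℂ :=
    (twoPiI ^ X.dim)⁻¹ • ((LinearMap.mul ℂ (Base W.K (W.H X))).compr₂ (baseTr (W.tr X)))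
  have hBe : ∀ v w, B v w = (twoPiI ^ X.dim)⁻¹ * baseTr (W.tr X) (v * w) := fun v w => rfl
  have key : ∀ v w r, baseTr (W.tr X) (v * w) = twoPiI ^ X.dim * r → B v w = r := by
    intro v w r h
    rw [hBe, h, ← mul_assoc, inv_mul_cancel₀ h0, one_mul]
  have hle : Submodule.span F S ≤ dRSub D X := Submodule.span_le.2 hS
  refine mem_of_pair (Submodule.span F S) ?_ B ?_ ?_ ?_
  · rw [eq_top_iff, ← hsp]
    exact Submodule.span_mono Submodule.subset_span
  · intro v hv
    apply baseTr_nondeg _ (Pool.Agent.Y133.Half.exists_dual_class W)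
    intro b
    have h1 := hv b
    rw [hBe] at h1
    exact (mul_eq_zero.1 h1).resolve_left (inv_ne_zero h0)
  · intro v hv w hw
    obtain ⟨r, hr, h⟩ := (D.form X).tr _ ((D.form X).mul v (hle hv) w (hle hw))
    rw [key v w r h]
    exact hr
  · intro w hw
    induction hw using Submodule.span_induction with
    | mem x hx =>
      obtain ⟨r, hr, h⟩ := hv x hx
      rw [key v x r h]
      exact hr
    | zero => rw [map_zero]; exact F.zero_mem
    | add x y _ _ hx hy => rw [map_add]; exact F.add_mem hx hy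
    | smul c x _ hx =>
      have h6 : c • x = (c : ℂ) • x := rfl
      rw [h6, map_smul, smul_eq_mul]
      exact F.mul_mem c.2 hx

lemma mem_dR_of_span (D : DeRham W F) {S : Set (Base W.K (W.H X))} (hS : S ⊆ D.dR X)
    (hsp : Submodule.span ℂ S = ⊤) {v : Base W.K (W.H X)}
    (hv : ∀ w ∈ S, ∃ r ∈ F, baseTr (W.tr X) (v * w) = twoPiI ^ X.dim * r) : v ∈ D.dR X :=
  (Submodule.span_le.2 hS : Submodule.span F S ≤ dRSub D X) (mem_span_of_span D hS hsp hv)

/-- Linear maps which respect a spanning subset of the de Rham cohomology respect it. -/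
lemma preserve (D : DeRham W F) (Θ : Base W.K (W.H X) →ₗ[ℂ] Base W.K (W.H Y))
    (h : Submodule.span ℂ {x | x ∈ D.dR X ∧ Θ x ∈ D.dR Y} = ⊤) {u : Base W.K (W.H X)}
    (hu : u ∈ D.dR X) : Θ u ∈ D.dR Y := by
  have h1 := mem_span_of_span D (S := {x | x ∈ D.dR X ∧ Θ x ∈ D.dR Y}) (fun x hx => hx.1) h
    (v := u) (fun w hw => (D.form X).tr _ ((D.form X).mul u hu w hw.1))
  have key : ∀ y ∈ Submodule.span F {x | x ∈ D.dR X ∧ Θ x ∈ D.dR Y}, Θ y ∈ D.dR Y := by
    intro y hy
    induction hy using Submodule.span_induction with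
    | mem x hx => exact hx.2
    | zero => rw [map_zero]; exact (D.form Y).zero
    | add x y _ _ hx hy => rw [map_add]; exact (D.form Y).add _ hx _ hy
    | smul c x _ hx =>
      have h6 : c • x = (c : ℂ) • x := rfl
      rw [h6, map_smul]
      exact (D.form Y).smul _ c.2 _ hx
  exact key u h1

lemma dR_smul_sum (D : DeRham W F) {ι : Type*} (s : Finset ι) {f : ι → Base W.K (W.H X)}
    (h : ∀ i ∈ s, f i ∈ D.dR X) : ∑ i ∈ s, f i ∈ D.dR X :=
  Submodule.sum_mem (dRSub D X) h

section Gr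

variable (D : GrDeRham W F)

lemma proj_mem {u : Base W.K (W.H X)} (hu : u ∈ D.dR X) (i : ℕ) :
    bc (proj (W.isInternal X) i) u ∈ D.dR X ∧
      bc (proj (W.isInternal X) i) u ∈ degC (W.gr X) i := by
  obtain ⟨f, hf, rfl⟩ := D.graded X u hu
  have h1 : bc (proj (W.isInternal X) i) (∑ j ∈ Finset.range (2 * X.dim + 1), f j) =
      if i ∈ Finset.range (2 * X.dim + 1) then f i else 0 := by
    rw [map_sum, ← Finset.sum_ite_eq (Finset.range (2 * X.dim + 1)) i f]
    apply Finset.sum_congr rfl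
    intro j _
    split_ifs with h
    · subst h
      exact bc_proj_same _ (hf i).2
    · exact bc_proj_ne _ h (hf j).2
  rw [h1]
  split_ifs
  · exact hf i
  · exact ⟨(D.form X).zero, Submodule.zero_mem _⟩

lemma degC_le_span (i : ℕ) : degC (W.gr X) i ≤
    Submodule.span ℂ {x | x ∈ D.dR X ∧ x ∈ degC (W.gr X) i} := by
  intro x hx
  have key : ∀ y ∈ Submodule.span ℂ (D.dR X), bc (proj (W.isInternal X) i) y ∈
      Submodule.span ℂ {x | x ∈ D.dR X ∧ x ∈ degC (W.gr X) i} := by
    intro y hy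
    induction hy using Submodule.span_induction with
    | mem x hx => exact Submodule.subset_span (proj_mem D hx i)
    | zero => rw [map_zero]; exact Submodule.zero_mem _
    | add x y _ _ hx hy => rw [map_add]; exact Submodule.add_mem _ hx hy
    | smul c x _ hx => rw [map_smul]; exact Submodule.smul_mem _ _ hx
  have h1 := key x (by rw [(D.form X).span]; trivial)
  rwa [bc_proj_same _ hx] at h1

/-- Linear maps which respect a spanning subset of the homogeneous elements. -/
lemma preserve_gr (Θ : Base W.K (W.H X) →ₗ[ℂ] Base W.K (W.H Y))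
    (h : ∀ i, degC (W.gr X) i ≤ Submodule.span ℂ {x | x ∈ D.dR X ∧ Θ x ∈ D.dR Y})
    {u : Base W.K (W.H X)} (hu : u ∈ D.dR X) : Θ u ∈ D.dR Y :=
  preserve D.toDeRham Θ (degC_top (W.isInternal X) h) hu

end Gr

section Lef

variable {z : X.Cycles} {Lam : Module.End W.K (W.H X)}

lemma isHom_L (hz : X.IsCyc 1 z) : IsHom (W.gr X) 2 (LinearMap.mulLeft W.K (W.cl X z)) := by
  simpa using rop_opAlg.hom (rop_mulLeft (W := W) hz)

lemma L_pres (D : DeRham W F) (hz : X.IsCyc 1 z) (j : ℕ) {u : Base W.K (W.H X)}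
    (hu : u ∈ D.dR X) :
    twoPiI ^ j • bc (LinearMap.mulLeft W.K (W.cl X z) ^ j) u ∈ D.dR X := by
  induction j with
  | zero =>
    have h1 : bc (LinearMap.mulLeft W.K (W.cl X z) ^ 0) u = u := by
      refine base_ext (f := bc (LinearMap.mulLeft W.K (W.cl X z) ^ 0)) (g := LinearMap.id)
        (fun c => ?_) u
      rw [bc_tm, pow_zero]
      rfl
    rw [h1, pow_zero, one_smul]
    exact hu
  | succ j ih =>
    have h1 : bc (LinearMap.mulLeft W.K (W.cl X z) ^ (j + 1)) u =
        bc (LinearMap.mulLeft W.K (W.cl X z)) (bc (LinearMap.mulLeft W.K (W.cl X z) ^ j) u) := by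
      rw [pow_succ']
      exact bc_comp_apply _ _ _
    rw [h1, pow_succ', mul_smul, ← map_smul, bc_mulLeft]
    exact (D.form X).mul _ ((D.form X).cyc 1 _ ⟨z, hz, rfl⟩) _ ih

variable (D : GrDeRham W F)

lemma thet_pres (hz : X.IsCyc 1 z) (hHL : HardLefschetz W X z)
    (hLam : IsLam (W.gr X) X.dim (LinearMap.mulLeft W.K (W.cl X z)) Lam) {i : ℕ}
    (hi : i ≤ X.dim) {u : Base W.K (W.H X)} (hu : u ∈ D.dR X) :
    (twoPiI ^ (X.dim - i))⁻¹ • bc (thet (W.isInternal X) X.dim Lam i) u ∈ D.dR X := by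
  have hL := isHom_L (W := W) hz
  have h0 : twoPiI ^ (X.dim - i) ≠ 0 := pow_ne_zero _ twoPiI_ne
  set L := LinearMap.mulLeft W.K (W.cl X z) with hLdef
  set Θ : Base W.K (W.H X) →ₗ[ℂ] Base W.K (W.H X) :=
    (twoPiI ^ (X.dim - i))⁻¹ • bc (thet (W.isInternal X) X.dim Lam i) with hΘ
  refine preserve_gr D Θ ?_ hu
  intro m
  by_cases hm : m = 2 * X.dim - i
  · subst hm
    intro x hx
    have h1 : x = bc (L ^ (X.dim - i)) (bc (thet (W.isInternal X) X.dim Lam i) x) := by
      refine degC_ext (f := LinearMap.id)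
        (g := bc (L ^ (X.dim - i)) ∘ₗ bc (thet (W.isInternal X) X.dim Lam i)) (fun c hc => ?_) hx
      rw [LinearMap.comp_apply, bc_tm, bc_tm,
        (L_thet (W.isInternal X) hL W_hbd hHL hLam hi hc).2]
      rfl
    have h2 : bc (thet (W.isInternal X) X.dim Lam i) x ∈ degC (W.gr X) i :=
      degC_map (fun c hc => (L_thet (W.isInternal X) hL W_hbd hHL hLam hi hc).1) hx
    rw [h1]
    have h3 := degC_le_span D i h2
    set y := bc (thet (W.isInternal X) X.dim Lam i) x with hy
    clear_value y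
    clear h1 h2 hy hx
    induction h3 using Submodule.span_induction with
    | mem y hy =>
      have h4 : bc (L ^ (X.dim - i)) y =
          (twoPiI ^ (X.dim - i))⁻¹ • (twoPiI ^ (X.dim - i) • bc (L ^ (X.dim - i)) y) := by
        rw [smul_smul, inv_mul_cancel₀ h0, one_smul]
      rw [h4]
      apply Submodule.smul_mem
      apply Submodule.subset_span
      refine ⟨L_pres D.toDeRham hz _ hy.1, ?_⟩
      have h5 : bc (thet (W.isInternal X) X.dim Lam i) (bc (L ^ (X.dim - i)) y) = y := by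
        refine degC_ext (f := bc (thet (W.isInternal X) X.dim Lam i) ∘ₗ bc (L ^ (X.dim - i)))
          (g := LinearMap.id) (fun c hc => ?_) hy.2
        rw [LinearMap.comp_apply, bc_tm, bc_tm, thet_L (W.isInternal X) hL W_hbd hHL hLam hi hc]
        rfl
      have h6 : Θ (twoPiI ^ (X.dim - i) • bc (L ^ (X.dim - i)) y) = y := by
        rw [hΘ, LinearMap.smul_apply, map_smul, h5, smul_smul, inv_mul_cancel₀ h0, one_smul]
      rw [h6]
      exact hy.1
    | zero => rw [map_zero]; exact Submodule.zero_mem _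
    | add x y _ _ hx hy => rw [map_add]; exact Submodule.add_mem _ hx hy
    | smul c x _ hx => rw [map_smul]; exact Submodule.smul_mem _ _ hx
  · refine (degC_le_span D m).trans (Submodule.span_mono ?_)
    rintro x ⟨hx1, hx2⟩
    refine ⟨hx1, ?_⟩
    have h1 : bc (thet (W.isInternal X) X.dim Lam i) x = 0 := by
      refine degC_ext (f := bc (thet (W.isInternal X) X.dim Lam i)) (g := 0) (fun c hc => ?_) hx2
      rw [bc_tm, thet_ne (W.isInternal X) hm hc, tm_zero]
      rfl
    rw [hΘ, LinearMap.smul_apply, h1, smul_zero]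
    exact (D.form X).zero

/-- The operator `(2 π i)⁻¹ Λ` respects the de Rham cohomology. -/
lemma lam_pres (hz : X.IsCyc 1 z) (hHL : HardLefschetz W X z)
    (hLam : IsLam (W.gr X) X.dim (LinearMap.mulLeft W.K (W.cl X z)) Lam)
    {u : Base W.K (W.H X)} (hu : u ∈ D.dR X) : twoPiI⁻¹ • bc Lam u ∈ D.dR X := by
  have hL := isHom_L (W := W) hz
  set L := LinearMap.mulLeft W.K (W.cl X z) with hLdef
  obtain ⟨f, hf, rfl⟩ := D.graded X u hu
  rw [map_sum, Finset.smul_sum]
  refine dR_smul_sum D.toDeRham _ fun m hm => ?_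
  rw [Finset.mem_range] at hm
  obtain ⟨h1, h2⟩ := hf m
  rcases Nat.lt_or_ge m 2 with hm2 | hm2
  · have h3 : bc Lam (f m) = 0 := by
      refine degC_ext (f := bc Lam) (g := 0) (fun c hc => ?_) h2
      rw [bc_tm, lam_low hL W_hbd hLam hc hm2, tm_zero]
      rfl
    rw [h3, smul_zero]
    exact (D.form X).zero
  · rcases Nat.lt_or_ge X.dim m with hmn | hmn
    · have h3 : bc Lam (f m) = bc (L ^ (m - X.dim - 1))
          (bc (thet (W.isInternal X) X.dim Lam (2 * X.dim - m)) (f m)) := by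
        refine degC_ext (f := bc Lam) (g := bc (L ^ (m - X.dim - 1)) ∘ₗ
          bc (thet (W.isInternal X) X.dim Lam (2 * X.dim - m))) (fun c hc => ?_) h2
        rw [LinearMap.comp_apply, bc_tm, bc_tm, bc_tm,
          lam_eq_high (W.isInternal X) hL W_hbd hHL hLam hmn (by omega) hc]
      have h4 := L_pres D.toDeRham hz (m - X.dim - 1)
        (thet_pres D hz hHL hLam (i := 2 * X.dim - m) (by omega) h1)
      rw [map_smul, smul_smul, ← h3, show X.dim - (2 * X.dim - m) = m - X.dim - 1 + 1 by omega]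
        at h4
      have h5 : twoPiI ^ (m - X.dim - 1) * (twoPiI ^ (m - X.dim - 1 + 1))⁻¹ = twoPiI⁻¹ := by
        rw [pow_succ, mul_inv, ← mul_assoc, mul_inv_cancel₀ (pow_ne_zero _ twoPiI_ne), one_mul]
      rwa [h5] at h4
    · have h3 : bc Lam (f m) = bc (thet (W.isInternal X) X.dim Lam (m - 2))
          (bc (L ^ (X.dim - m + 1)) (f m)) := by
        refine degC_ext (f := bc Lam) (g := bc (thet (W.isInternal X) X.dim Lam (m - 2)) ∘ₗ
          bc (L ^ (X.dim - m + 1))) (fun c hc => ?_) h2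
        rw [LinearMap.comp_apply, bc_tm, bc_tm, bc_tm,
          lam_eq_low (W.isInternal X) hL W_hbd hHL hLam hm2 hmn hc]
      have h4 := thet_pres D hz hHL hLam (i := m - 2) (by omega)
        (L_pres D.toDeRham hz (X.dim - m + 1) h1)
      rw [map_smul, smul_smul, ← h3, show X.dim - (m - 2) = X.dim - m + 1 + 1 by omega] at h4
      have h5 : (twoPiI ^ (X.dim - m + 1 + 1))⁻¹ * twoPiI ^ (X.dim - m + 1) = twoPiI⁻¹ := by
        rw [pow_succ, mul_inv, mul_comm _ twoPiI⁻¹, mul_assoc,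
          inv_mul_cancel₀ (pow_ne_zero _ twoPiI_ne), mul_one]
      rwa [h5] at h4

end Lef

end Pool.Agent.Q57.DR
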