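import Pool.Agent.Q57.DR.Mot
import Pool.Agent.Q50.MO.MNum
import Pool.Agent.Y133.Half.PairPred
import Pool.Agent.Q60.HD.Law

/-!
# Motivated classes, Hodge classes and de Rham-Betti classes
-/

open CategoryTheory AlgebraicGeometry

open scoped TensorProduct

universe u v

namespace Pool.Agent.Q57.DR

open Module
open Pool.Agent.H914 Pool.Agent.H914.VarClass Pool.Agent.H914.VarClass.Obj
  Pool.Agent.H914.WeilCohomology
open Pool.Agent.Y133.Per
open Pool.Agent.H447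
open Pool.Agent.Y133.Half
open Pool.Agent.Y121
open Pool.Agent.Q50.BL (exists_pw_section)

variable {k : Type u} [Field k] {𝒱 : VarClass k} {ops : CycleOps 𝒱}

section Gen

variable {W : WeilCohomology.{u, v} ops} [Algebra W.K ℂ] {F : Subfield ℂ} {X Y : 𝒱.Obj}

/-- **Motivated classes are de Rham-Betti classes.** -/
theorem mot_drb (D : GrDeRham W F) {j : ℕ} {c : W.H Y}
    (h : Pool.Agent.Q55.Motivated W Y j c) : IsDRB D.toDeRham Y j c := by
  induction h with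
  | cl hz => exact IsDRB.cl hz
  | lambda hD hHL hc => exact ⟨hc.1, lam_class D hD hHL hc.2⟩
  | add _ _ ha hb => exact ha.add hb
  | smul r _ ha => exact ha.smul r
  | mul _ _ ha hb => exact ha.mul hb
  | pull f _ ha => exact ha.map f
  | push f hl _ ha => exact ha.push f hl

/-- The Lefschetz isomorphisms detect de Rham-Betti classes. -/
lemma lift_drb (D : GrDeRham W F) {z : X.Cycles} (hz : X.IsCyc 1 z)
    (hHL : HardLefschetz W X z) {j : ℕ} (hj : 2 * j ≤ X.dim) {x : W.H X}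
    (hx : x ∈ W.gr X (2 * j))
    (h : IsDRB D.toDeRham X (X.dim - j) (W.cl X z ^ (X.dim - 2 * j) * x)) :
    IsDRB D.toDeRham X j x := by
  have hL := isHom_L (W := W) hz
  obtain ⟨Lam, -, hLam⟩ := exists_isLam (W.isInternal X) hL W_hbd hHL
  refine ⟨hx, ?_⟩
  have h1 := thet_pres D hz hHL hLam hj h.2
  rw [twist, bc_tm, smul_tm] at h1
  have h2 := thet_L (W.isInternal X) hL W_hbd hHL hLam hj hx
  rw [LinearMap.pow_mulLeft, LinearMap.mulLeft_apply] at h2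
  have h3 : (twoPiI ^ (X.dim - 2 * j))⁻¹ * twoPiI ^ (X.dim - j) = twoPiI ^ j := by
    rw [show X.dim - j = X.dim - 2 * j + j by omega, pow_add, ← mul_assoc,
      inv_mul_cancel₀ (pow_ne_zero _ twoPiI_ne), one_mul]
  rwa [h2, h3] at h1

end Gen

section Hodge

variable {T : AH.HodgeTheory ops} {F : Subfield ℂ} {X Y : 𝒱.Obj}

/-- The Hodge classes which are de Rham-Betti classes. -/
noncomputable def hdPred (T : AH.HodgeTheory ops) {F : Subfield ℂ} (D : DeRham T.W F) :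
    ClassPred T.W where
  P X j c := AH.IsHodge T X j c ∧ IsDRB D X j c
  gr h := h.1.1
  zero := ⟨AH.IsHodge.zero, IsDRB.zero⟩
  add ha hb := ⟨ha.1.add hb.1, ha.2.add hb.2⟩
  smul r _ ha := ⟨ha.1.smul r, ha.2.smul r⟩
  cl hz := ⟨AH.IsHodge.cl hz, IsDRB.cl hz⟩
  mul ha hb := ⟨ha.1.mul hb.1, ha.2.mul hb.2⟩
  map f _ _ h := ⟨h.1.map f, h.2.map f⟩
  push f _ _ hl _ h := ⟨h.1.push f hl, h.2.push f hl⟩

/-- The Lefschetz isomorphisms for the Hodge classes which are de Rham-Betti classes. -/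
lemma lifts_hd (D : GrDeRham T.W F) : AH.Lifts T (hdPred T D.toDeRham) := by
  intro X z hz j hj v hv
  obtain ⟨x, hx, hxv⟩ := AH.lifts_hodge T X z hz j hj v hv.1
  refine ⟨x, ⟨hx, ?_⟩, hxv⟩
  refine lift_drb D hz.1 hz.2.1 hj hx.1 ?_
  rw [hxv]
  exact hv.2

lemma hd_nondeg (D : GrDeRham T.W F) (X : 𝒱.Obj) :
    (hdPred T D.toDeRham).sys.Nondeg X := by
  intro x hx h
  exact AH.q_nondeg_sys (Q := hdPred T D.toDeRham) (fun {X j x} h => h.1) (lifts_hd D) hx h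

lemma mot_nondeg (X : 𝒱.Obj) : (Pool.Agent.Q55.motPred T.W).sys.Nondeg X := by
  intro x hx h
  exact AH.q_nondeg_sys (Q := Pool.Agent.Q55.motPred T.W)
    (fun {X j x} h => Pool.Agent.Q50.MO.mot_hodge (T := T) h) (Pool.Agent.Q50.MO.lifts_mot T) hx h

end Hodge

section Half

variable {W : WeilCohomology.{u, v} ops} {S R : Sys W} {X : 𝒱.Obj}

lemma le_retract {P Q : 𝒱.Obj} (h : R.C Q ≤ S.C Q) (s : P ⟶ Q) (q : Q ⟶ P) (hsq : s ≫ q = 𝟙 P) :
    R.C P ≤ S.C P := by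
  intro c hc
  have h1 := h (R.map q hc)
  have h2 := S.map s h1
  rwa [← W.map_comp, hsq, W.map_id] at h2

lemma le_pw {m n : ℕ} (hmn : m ≤ n) (h : R.C (pw X n) ≤ S.C (pw X n)) :
    R.C (pw X m) ≤ S.C (pw X m) := by
  induction n, hmn using Nat.le_induction with
  | base => exact h
  | succ n _ ih =>
    obtain ⟨s, hs⟩ := exists_pw_section X n
    exact ih (le_retract h s (fst (pw X n) X) hs)

end Half

/-- **The half law for two systems.** -/
theorem half_sys {T : AH.HodgeTheory ops} {X : 𝒱.Obj} [Nontrivial (T.W.H X)] {S R : Sys T.W}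
    (hSR : ∀ Z, S.C Z ≤ R.C Z)
    (hS1 : ∀ Z : 𝒱.Obj, ∀ z : Z.Cycles, Z.IsCyc 1 z → T.W.cl Z z ∈ S.C Z) {N m₀ : ℕ} (hN : 8 ≤ N)
    (hN2 : N % 2 = 0) (hm₀ : m₀ + 1 ≤ N) (hne : ¬ R.C (pw X m₀) ≤ S.C (pw X m₀)) {ε : ℝ}
    (hε : 0 < ε) {n : ℕ} (hn : (2 * (finrank T.W.K (T.W.H X) : ℝ)) ^ (3 * N) / ε ^ 2 ≤ n + 1) :
    (S.a (pw X n) : ℝ) ≤ (1 / 2 + ε) * finrank T.W.K (R.C (pw X n)) := by
  have hb : 0 < finrank T.W.K (T.W.H X) := Module.finrank_pos
  obtain ⟨l, hl, hl1⟩ := Pool.Agent.Q60.HD.exists_tr_sys (X := X) S hS1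
  have hpos : ∀ n, 0 < S.al X n := by
    intro n
    obtain ⟨m, hm, hm1⟩ := S.exists_lam hl hl1 n
    refine S.a_pos (Sys.xp_mem_C S hm hm) ?_
    rw [tr_xp, hm1, mul_one]
  have hbot : ∀ m, S.C (pw X m) ≠ ⊥ := by
    intro m hm
    obtain ⟨y, hy, hy1⟩ := S.exists_lam hl hl1 m
    rw [hm, Submodule.mem_bot] at hy
    exact ne_zero_of_tr hy1 hy
  refine Pool.Agent.Q60.HD.uniform_half hSR hb hpos hbot hN hN2 (fun m hm => ?_) hε hn
  refine lt_of_le_of_ne (hSR _) fun heq => hne ?_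
  exact le_pw (by omega) heq.ge

end Pool.Agent.Q57.DR
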