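import Pool.Agent.Q57.DR.Form2

/-!
# Motivated classes are de Rham-Betti classes
-/

open CategoryTheory AlgebraicGeometry

open scoped TensorProduct

universe u v

namespace Pool.Agent.Q57.DR

open Module
open Pool.Agent.H914 Pool.Agent.H914.VarClass Pool.Agent.H914.VarClass.Obj
  Pool.Agent.H914.WeilCohomology
open Pool.Agent.Y133.Per
open Pool.Agent.H447

variable {k : Type u} [Field k] {𝒱 : VarClass k} {ops : CycleOps 𝒱}
  {W : WeilCohomology.{u, v} ops} [Algebra W.K ℂ] {F : Subfield ℂ} {X Y : 𝒱.Obj}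

/-- The external products of the elements of the de Rham cohomologies of `X` and `Y`. -/
def extProd (D : DeRham W F) (X Y : 𝒱.Obj) : Set (Base W.K (W.H (X.prod Y))) :=
  {w | ∃ a ∈ D.dR X, ∃ b ∈ D.dR Y,
    w = baseMap (W.map (fst X Y)) a * baseMap (W.map (snd X Y)) b}

lemma extProd_sub (D : DeRham W F) : extProd D X Y ⊆ D.dR (X.prod Y) := by
  rintro _ ⟨a, ha, b, hb, rfl⟩
  exact (D.form _).mul _ (D.map _ a ha) _ (D.map _ b hb)

lemma extProd_span (D : DeRham W F) : Submodule.span ℂ (extProd D X Y) = ⊤ := by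
  have key : ∀ a b, baseMap (W.map (fst X Y)) a * baseMap (W.map (snd X Y)) b ∈
      Submodule.span ℂ (extProd D X Y) := by
    intro a b
    have ha : a ∈ Submodule.span ℂ (D.dR X) := by rw [(D.form X).span]; trivial
    have hb : b ∈ Submodule.span ℂ (D.dR Y) := by rw [(D.form Y).span]; trivial
    induction ha using Submodule.span_induction with
    | mem a ha =>
      induction hb using Submodule.span_induction with
      | mem b hb => exact Submodule.subset_span ⟨a, ha, b, hb, rfl⟩
      | zero => rw [map_zero, mul_zero]; exact Submodule.zero_mem _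
      | add x y _ _ hx hy => rw [map_add, mul_add]; exact Submodule.add_mem _ hx hy
      | smul c x _ hx => rw [map_smul, mul_smul_comm]; exact Submodule.smul_mem _ _ hx
    | zero => rw [map_zero, zero_mul]; exact Submodule.zero_mem _
    | add x y _ _ hx hy => rw [map_add, add_mul]; exact Submodule.add_mem _ hx hy
    | smul c x _ hx => rw [map_smul, smul_mul_assoc]; exact Submodule.smul_mem _ _ hx
  rw [eq_top_iff]
  intro x _
  refine base_ind (p := fun x => x ∈ Submodule.span ℂ (extProd D X Y)) (Submodule.zero_mem _) ?_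
    (fun a b ha hb => Submodule.add_mem _ ha hb) x
  intro r c
  obtain ⟨t, rfl⟩ := (W.kunneth X Y).2 c
  induction t using TensorProduct.induction_on with
  | zero => rw [map_zero, tm_zero]; exact Submodule.zero_mem _
  | add a b ha hb => rw [map_add, tm_add]; exact Submodule.add_mem _ ha hb
  | tmul a b =>
    have h1 : (tm r (kunnethMap (W.map (fst X Y)) (W.map (snd X Y)) (a ⊗ₜ[W.K] b)) :
        Base W.K (W.H (X.prod Y))) =
        baseMap (W.map (fst X Y)) (tm r a) * baseMap (W.map (snd X Y)) (tm 1 b) := by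
      rw [baseMap_tm, baseMap_tm, tm_mul, mul_one]
      rfl
    rw [h1]
    exact key _ _

lemma tr_ext (c : W.H (X.prod Y)) (s : ℂ) (a : Base W.K (W.H X)) (b : Base W.K (W.H Y)) :
    baseTr (W.tr (X.prod Y))
        (tm s c * (baseMap (W.map (fst X Y)) a * baseMap (W.map (snd X Y)) b)) =
      s * baseTr (W.tr Y) (bc (W.corr c) a * b) := by
  refine base_ind (p := fun a => baseTr (W.tr (X.prod Y))
        (tm s c * (baseMap (W.map (fst X Y)) a * baseMap (W.map (snd X Y)) b)) =
      s * baseTr (W.tr Y) (bc (W.corr c) a * b)) ?_ ?_ ?_ a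
  · rw [map_zero, map_zero, zero_mul, mul_zero, map_zero, zero_mul, map_zero, mul_zero]
  · intro r x
    refine base_ind (p := fun b => baseTr (W.tr (X.prod Y))
        (tm s c * (baseMap (W.map (fst X Y)) (tm r x) * baseMap (W.map (snd X Y)) b)) =
      s * baseTr (W.tr Y) (bc (W.corr c) (tm r x) * b)) ?_ ?_ ?_ b
    · rw [map_zero, mul_zero, mul_zero, map_zero, mul_zero, map_zero, mul_zero]
    · intro t y
      rw [baseMap_tm, baseMap_tm, tm_mul, tm_mul, bc_tm, tm_mul, baseTr_tm, baseTr_tm, corr_apply,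
        W.tr_push, ← mul_assoc c, mul_assoc s]
    · intro b b' hb hb'
      rw [map_add, mul_add, mul_add, map_add, hb, hb', mul_add, map_add, mul_add]
  · intro a a' ha ha'
    rw [map_add, add_mul, mul_add, map_add, ha, ha', map_add, add_mul, map_add, mul_add]

lemma lam_zero {z : X.Cycles} {Lam : Module.End W.K (W.H X)} (hz : X.IsCyc 1 z)
    (hLam : IsLam (W.gr X) X.dim (LinearMap.mulLeft W.K (W.cl X z)) Lam) (h0 : X.dim = 0)
    (x : W.H X) : Lam x = 0 := by
  refine gr_induction (W.isInternal X) (p := fun x => Lam x = 0) ?_ ?_ x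
  · intro i a ha
    rcases Nat.eq_zero_or_pos i with rfl | hi
    · exact lam_low (isHom_L hz) W_hbd hLam ha (by omega)
    · rw [W.gr_eq_bot X i (by omega), Submodule.mem_bot] at ha
      rw [ha, map_zero]
  · intro a b ha hb
    rw [map_add, ha, hb, add_zero]

/-- The class of the operator `Λ` is a de Rham-Betti class. -/
theorem lam_class (D : GrDeRham W F) {z : X.Cycles} (hz : X.IsCyc 1 z)
    (hHL : HardLefschetz W X z) {c : W.H (X.prod X)}
    (hLam : IsLam (W.gr X) X.dim (LinearMap.mulLeft W.K (W.cl X z)) (W.corr c)) :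
    twist (X.dim - 1) c ∈ D.dR (X.prod X) := by
  refine mem_dR_of_span D.toDeRham (extProd_sub D.toDeRham) (extProd_span D.toDeRham) ?_
  rintro _ ⟨a, ha, b, hb, rfl⟩
  rw [twist, tr_ext]
  rcases Nat.eq_zero_or_pos X.dim with h0 | h0
  · refine ⟨0, F.zero_mem, ?_⟩
    have h1 : bc (W.corr c) a = 0 := by
      refine base_ext (f := bc (W.corr c)) (g := 0) (fun d => ?_) a
      rw [bc_tm, lam_zero hz hLam h0, tm_zero]
      rfl
    rw [h1, zero_mul, map_zero, mul_zero, mul_zero]
  · obtain ⟨r, hr, h⟩ := (D.form X).tr _ ((D.form X).mul _ (lam_pres D hz hHL hLam ha) _ hb)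
    refine ⟨r, hr, ?_⟩
    rw [smul_mul_assoc, map_smul, smul_eq_mul] at h
    have h2 : baseTr (W.tr X) (bc (W.corr c) a * b) = twoPiI * (twoPiI ^ X.dim * r) := by
      rw [← h, ← mul_assoc, mul_inv_cancel₀ twoPiI_ne, one_mul]
    rw [h2, dim_prod, pow_add]
    have h3 : twoPiI ^ X.dim = twoPiI ^ (X.dim - 1) * twoPiI := by
      rw [← pow_succ, Nat.sub_add_cancel h0]
    rw [h3]
    ring

end Pool.Agent.Q57.DR
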